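import Pool.Agent.Helper94.PQ.Stmts

/-! # Row CARD: congruences for the orders of the ramification groups -/

namespace PQ

/-- a permutation all of whose cycles have length `N` -/
theorem dvd_card_of_perm {Y : Type*} [Finite Y] (c : Equiv.Perm Y) (N : ℕ)
    (h : ∀ (y : Y) (j : ℕ), (c ^ j) y = y ↔ N ∣ j) : N ∣ Nat.card Y := by
  classical
  have := Fintype.ofFinite Y
  rcases isEmpty_or_nonempty Y with hY | ⟨⟨y0⟩⟩
  · simp
  have hord : orderOf c = N := by
    apply Nat.dvd_antisymm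
    · apply orderOf_dvd_of_pow_eq_one
      ext y
      rw [(h y N).2 dvd_rfl]
      rfl
    · rw [← h y0]
      rw [pow_orderOf_eq_one]
      rfl
  have hcard : Nat.card (Subgroup.zpowers c) = N := by
    rw [Nat.card_zpowers, hord]
  have e := MulAction.selfEquivSigmaOrbitsQuotientStabilizer (Subgroup.zpowers c) Y
  have hst : ∀ y : Y, MulAction.stabilizer (Subgroup.zpowers c) y = ⊥ := by
    intro y
    rw [eq_bot_iff]
    rintro ⟨g, hg⟩ hgy
    rw [MulAction.mem_stabilizer_iff] at hgy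
    rw [Subgroup.mem_bot]
    apply Subtype.ext
    change g = 1
    obtain ⟨j, rfl⟩ := mem_powers_iff_mem_zpowers.2 hg
    change (c ^ j) y = y at hgy
    rw [h y j, ← hord] at hgy
    exact orderOf_dvd_iff_pow_eq_one.1 hgy
  rw [Nat.card_congr e, Nat.card_sigma]
  refine Finset.dvd_sum fun ω _ => ?_
  rw [hst, ← Subgroup.index_eq_card, Subgroup.index_bot, hcard]

theorem cardR : ST_CARD := by
  intro G _ _ p e t R hp hF i hi
  classical
  have hn : (R (i + 1)).Normal := hF.normal (i + 1)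
  have hni : (R i).Normal := hF.normal i
  have hle : R (i + 1) ≤ R i := hF.anti (Nat.le_succ i)
  set N := e / e.gcd i with hN
  have he := hF.e_pos
  have hg : 0 < e.gcd i := Nat.gcd_pos_of_pos_left _ he
  have hNdvd : ∀ j : ℕ, e ∣ i * j ↔ N ∣ j := by
    intro j
    have hco : Nat.Coprime (e / e.gcd i) (i / e.gcd i) := Nat.coprime_div_gcd_div_gcd hg
    have h1 : e = e.gcd i * (e / e.gcd i) := (Nat.mul_div_cancel' (Nat.gcd_dvd_left e i)).symm
    have h2 : i = e.gcd i * (i / e.gcd i) := (Nat.mul_div_cancel' (Nat.gcd_dvd_right e i)).symm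
    constructor
    · intro h
      have h3 : e.gcd i * (e / e.gcd i) ∣ e.gcd i * ((i / e.gcd i) * j) := by
        rw [← h1, ← mul_assoc, ← h2]
        exact h
      exact hco.dvd_of_dvd_mul_left (Nat.dvd_of_mul_dvd_mul_left hg h3)
    · intro h
      have h3 : e.gcd i * (e / e.gcd i) ∣ e.gcd i * ((i / e.gcd i) * j) :=
        mul_dvd_mul_left _ (h.mul_left _)
      rw [← h1, ← mul_assoc, ← h2] at h3
      exact h3
  set Q := G ⧸ R (i + 1)
  set τ : Q := QuotientGroup.mk' (R (i + 1)) t with hτ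
  set S : Subgroup Q := (R i).map (QuotientGroup.mk' (R (i + 1))) with hS
  have hmem : ∀ x : Q, x ∈ S → τ * x * τ⁻¹ ∈ S := by
    rintro x ⟨g, hg, rfl⟩
    refine ⟨t * g * t⁻¹, hni.conj_mem g hg t, ?_⟩
    rw [map_mul, map_mul, map_inv]
  have hmem' : ∀ x : Q, x ∈ S → τ⁻¹ * x * τ ∈ S := by
    rintro x ⟨g, hg, rfl⟩
    refine ⟨t⁻¹ * g * t, ?_, ?_⟩
    · have := hni.conj_mem g hg t⁻¹
      rwa [inv_inv] at this
    · rw [map_mul, map_mul, map_inv]
  let Y := {x : Q // x ∈ S ∧ x ≠ 1}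
  let c : Equiv.Perm Y :=
    { toFun := fun x => ⟨τ * x.1 * τ⁻¹, hmem _ x.2.1, fun h => x.2.2 (by
        have := congrArg (fun z => τ⁻¹ * z * τ) h
        simpa [mul_assoc] using this)⟩
      invFun := fun x => ⟨τ⁻¹ * x.1 * τ, hmem' _ x.2.1, fun h => x.2.2 (by
        have := congrArg (fun z => τ * z * τ⁻¹) h
        simpa [mul_assoc] using this)⟩
      left_inv := fun x => Subtype.ext (by simp [mul_assoc])
      right_inv := fun x => Subtype.ext (by simp [mul_assoc]) }
  have hpow : ∀ (j : ℕ) (x : Y), ((c ^ j) x).1 = τ ^ j * x.1 * (τ ^ j)⁻¹ := by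
    intro j
    induction j with
    | zero => intro x; simp
    | succ j ih =>
      intro x
      rw [pow_succ', Equiv.Perm.mul_apply]
      change τ * ((c ^ j) x).1 * τ⁻¹ = _
      rw [ih, pow_succ', mul_inv_rev]
      simp only [mul_assoc]
  have hper : ∀ (y : Y) (j : ℕ), (c ^ j) y = y ↔ N ∣ j := by
    rintro ⟨x, ⟨g, hg, rfl⟩, hx1⟩ j
    have hg' : g ∉ R (i + 1) := by
      intro h
      apply hx1
      exact (QuotientGroup.eq_one_iff g).2 h
    rw [← hNdvd, ← hF.fix i hi g hg hg' j, Subtype.ext_iff, hpow]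
    change τ ^ j * QuotientGroup.mk' (R (i + 1)) g * (τ ^ j)⁻¹ = QuotientGroup.mk' (R (i + 1)) g ↔ _
    rw [hτ, ← map_pow, ← map_inv, ← map_mul, ← map_mul, ← mul_inv_eq_one, ← map_inv, ← map_mul]
    exact QuotientGroup.eq_one_iff _
  have h1 := dvd_card_of_perm c N hper
  have h2 : Nat.card Y + 1 = Nat.card S := by
    have e1 : Nat.card Y = ((S : Set Q) \ {1}).ncard := by
      rw [← Nat.card_coe_set_eq]
      rfl
    have e2 : Nat.card S = (S : Set Q).ncard := by
      rw [← Nat.card_coe_set_eq]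
      rfl
    rw [e1, e2]
    exact Set.ncard_sdiff_singleton_add_one S.one_mem (Set.toFinite _)
  have h3 : Nat.card (R i) = Nat.card S * Nat.card (R (i + 1)) := by
    have e1 := Subgroup.relIndex_ker (K := R i) (QuotientGroup.mk' (R (i + 1)))
    rw [QuotientGroup.ker_mk'] at e1
    rw [hS, ← e1, mul_comm]
    have e2 := Subgroup.card_mul_index ((R (i + 1)).subgroupOf (R i))
    rw [← e2, Subgroup.relIndex]
    congr 1
    exact Nat.card_congr (Subgroup.subgroupOfEquivOfLe hle).toEquiv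
  obtain ⟨a, ha⟩ := h1
  have h4 : (e : ℤ) ∣ i * (N * a) := by
    have : e ∣ i * (N * a) := (hNdvd (N * a)).2 (dvd_mul_right _ _)
    exact_mod_cast this
  have h5 : (i : ℤ) * ((Nat.card (R i) : ℤ) - Nat.card (R (i + 1)))
      = i * (N * a) * Nat.card (R (i + 1)) := by
    rw [h3, ← h2, ha]
    push_cast
    ring
  rw [h5]
  exact h4.mul_right _

end PQ
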