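import Pool.Agent.Helper94.PQ.StmtsT
import Pool.Agent.Helper70.PQ.DYAD
import Pool.Agent.Helper54.PQ.RSK

/-! # Row DYADG: the conductor of an orthogonal representation of a `2`-group -/

set_option autoImplicit false

open NumberField
open scoped Classical TensorProduct

namespace PQ

open BKA Pool.Agent.Helper13.Swan

theorem dI_eq_card {Ω P : Type} [Field Ω] [Group P] [MulSemiringAction P Ω] [Fintype P]
    [FaithfulSMul P Ω] (w : Valuation Ω (WithZero (Multiplicative ℤ))) (π : Ω)
    (hB : Base P w π) (L : ℕ) (hL : Rk hB L = ⊥) (g : P) (hg : g ≠ 1) :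
    dI w π g = (((Finset.range L).filter (fun i => g ∈ Rk hB i)).card : ℤ) := by
  have hne : w (g • π - π) ≠ 0 := by
    rw [Valuation.ne_zero_iff, sub_ne_zero]
    intro h
    exact hg (hB.pi_free h)
  obtain ⟨m, hm⟩ := exists_ex hne
  have h1 : dI w π g = m := by
    unfold dI
    rw [hm]
    simp [ex]
  have h2 : 1 ≤ m := by
    have := hB.val_pi_sub_le g
    rwa [hm, ex_le_ex] at this
  have h3 : ∀ i : ℕ, g ∈ Rk hB i ↔ (i : ℤ) + 1 ≤ m := by
    intro i
    rw [mem_Rk, hm, ex_le_ex]
  have h4 : m ≤ L := by
    by_contra hc
    have : g ∈ Rk hB L := (h3 L).2 (by omega)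
    rw [hL, Subgroup.mem_bot] at this
    exact hg this
  have h5 : (Finset.range L).filter (fun i => g ∈ Rk hB i) = Finset.range m.toNat := by
    ext i
    rw [Finset.mem_filter, Finset.mem_range, Finset.mem_range, h3]
    omega
  rw [h1, h5, Finset.card_range]
  omega

theorem dyadG (h : ST_GALL) : ST_DYADG := by
  intro Ω P _ _ _ _ _ _ w π hB hP k V _ _ _ _ _ B hBs r hr
  let K := AlgebraicClosure k
  have : CharZero K := charZero_of_injective_algebraMap (algebraMap k K).injective
  let r' : P →* (K ⊗[k] V →ₗ[K] K ⊗[k] V) :=
    ((Module.End.baseChangeHom k K V).toRingHom.toMonoidHom).comp r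
  have hr'e : ∀ g, r' g = (r g).baseChange K := fun g => rfl
  have ht : ∀ g, LinearMap.trace K (K ⊗[k] V) (r' g) =
      algebraMap k K (LinearMap.trace k V (r g)) := by
    intro g
    rw [hr'e, LinearMap.trace_baseChange]
  have hdet : ∀ g, LinearMap.det (r' g) = algebraMap k K (LinearMap.det (r g)) := by
    intro g
    rw [hr'e, LinearMap.det_baseChange]
  obtain ⟨D, s, j, hD0, hDs, hs, hw⟩ := h Ω P w π hB hP K (K ⊗[k] V)
    (LinearMap.BilinForm.baseChange K B : K ⊗[k] V →ₗ[K] K ⊗[k] V →ₗ[K] K)
    (PQ54.symm_baseChange K B hBs) r' (by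
      intro g x y
      induction x using TensorProduct.induction_on with
      | zero => simp
      | add x x' hx hx' => rw [map_add, map_add, map_add, LinearMap.add_apply, hx, hx',
          LinearMap.add_apply]
      | tmul a v =>
        induction y using TensorProduct.induction_on with
        | zero => simp
        | add y y' hy hy' => rw [map_add, map_add, map_add, hy, hy']
        | tmul b w =>
          rw [hr'e, LinearMap.baseChange_tmul, LinearMap.baseChange_tmul,
            LinearMap.BilinForm.baseChange_tmul, LinearMap.BilinForm.baseChange_tmul, hr])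
  refine ⟨D, j, hD0, ?_, ?_⟩
  · intro g
    rcases hDs g with ⟨h1, h2⟩ | ⟨h1, h2⟩
    · left
      refine ⟨?_, h2⟩
      rw [hdet] at h1
      exact (algebraMap k K).injective (by rw [h1, map_one])
    · right
      refine ⟨?_, h2⟩
      rw [hdet] at h1
      exact (algebraMap k K).injective (by rw [h1, map_neg, map_one])
  · rw [hw]
    congr 2
    obtain ⟨L, hL⟩ := hB.exists_Rk_bot
    have hLi : ∀ i, L ≤ i → Rk hB i = ⊥ := fun i hi => le_bot_iff.1 (hL ▸ Rk_antitone hB hi)
    have hk : (s : K) = algebraMap k K (∑ g : P, ((Module.finrank k V : k) -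
        LinearMap.trace k V (r g)) * (dI w π g : k)) := by
      rw [hs, map_sum]
      refine Finset.sum_congr rfl fun g _ => ?_
      rw [map_mul, map_sub, map_natCast, map_intCast, ht, Module.finrank_baseChange]
    have htr1 : LinearMap.trace k V (r 1) = (Module.finrank k V : k) := by
      rw [map_one]
      exact LinearMap.trace_one k V
    have hsum : ∑ g : P, ((Module.finrank k V : k) - LinearMap.trace k V (r g)) *
        (dI w π g : k) = ∑ i ∈ Finset.range L, ∑ g : Rk hB i,
          ((Module.finrank k V : k) - LinearMap.trace k V (r (g : P))) := by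
      have e1 : ∀ g : P, ((Module.finrank k V : k) - LinearMap.trace k V (r g)) *
          (dI w π g : k) = ∑ i ∈ Finset.range L, if g ∈ Rk hB i then
            ((Module.finrank k V : k) - LinearMap.trace k V (r g)) else 0 := by
        intro g
        by_cases hg : g = 1
        · subst hg
          rw [htr1, sub_self, zero_mul]
          simp
        · rw [dI_eq_card w π hB L hL g hg, ← Finset.sum_filter, Finset.sum_const, nsmul_eq_mul,
            mul_comm]
          push_cast
          rfl
      rw [Finset.sum_congr rfl (fun g _ => e1 g), Finset.sum_comm]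
      refine Finset.sum_congr rfl fun i _ => ?_
      rw [← Finset.sum_filter]
      refine (Finset.sum_subtype _ (fun x => ?_) _)
      simp
    have hterm : ∀ (i : ℕ) (W : Submodule k V), (∀ x, x ∈ W ↔ ∀ g ∈ Rk hB i, r g x = x) →
        ∑ g : Rk hB i, ((Module.finrank k V : k) - LinearMap.trace k V (r (g : P))) =
        (((Nat.card (Rk hB i) : ℤ) * ((Module.finrank k V : ℤ) - Module.finrank k W) : ℤ) : k) := by
      intro i W hW
      have havg := dyad_avg r (Rk hB i) W hW
      rw [Finset.sum_sub_distrib, havg, Finset.sum_const, Finset.card_univ,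
        ← Nat.card_eq_fintype_card, nsmul_eq_mul]
      push_cast
      ring
    have hcast : Function.Injective (fun z : ℤ => (z : K)) := Int.cast_injective
    apply hcast
    change (s : K) = _
    rw [hk, hsum, finsum_eq_sum_of_support_subset (s := Finset.range L)]
    · refine Eq.trans ?_ (map_intCast (algebraMap k K) _)
      congr 1
      rw [Int.cast_sum]
      refine Finset.sum_congr rfl fun i _ => ?_
      exact hterm i _ (fun x => Iff.rfl)
    · intro i hi
      rw [Finset.coe_range, Set.mem_Iio]
      by_contra hne
      apply hi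
      have hbot := hLi i (not_lt.1 hne)
      have hWtop : ({ carrier := {x | ∀ g ∈ Rk hB i, r g x = x}
                      zero_mem' := fun _ _ => map_zero _
                      add_mem' := fun {x y} hx hy g hg => by
                        rw [map_add, hx g hg, hy g hg]
                      smul_mem' := fun a x hx g hg => by
                        rw [map_smul, hx g hg] } : Submodule k V) = ⊤ := by
        rw [eq_top_iff]
        intro x _ g hg
        rw [hbot, Subgroup.mem_bot] at hg
        rw [hg, map_one]
        rfl
      simp only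
      rw [hWtop, finrank_top, sub_self, mul_zero]

end PQ
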