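import Pool.Agent.Helper94.PQ.Stmts

/-! # Row HTE: the rank is even -/

open NumberField
open scoped Classical

namespace PQ

open BKA

theorem exists_place_two (F : Type) [Field F] [NumberField F] :
    ∃ v : Pl F, ((2 : ℕ) : 𝓞 F) ∈ v.asIdeal := by
  have hp : Prime (2 : ℤ) := Int.prime_two
  have hP : (Ideal.span {(2 : ℤ)}).IsMaximal := by
    have h1 : (Ideal.span {(2 : ℤ)}).IsPrime := (Ideal.span_singleton_prime hp.ne_zero).2 hp
    exact h1.isMaximal (by simp)
  obtain ⟨Q, hQ, hl⟩ := Ideal.exists_maximal_ideal_liesOver_of_isIntegral (S := 𝓞 F)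
    (Ideal.span {(2 : ℤ)})
  have h2 : ((2 : ℕ) : 𝓞 F) ∈ Q := by
    have h3 : (2 : ℤ) ∈ Ideal.span {(2 : ℤ)} := Ideal.mem_span_singleton_self _
    rw [hl.over] at h3
    have h4 : algebraMap ℤ (𝓞 F) 2 ∈ Q := h3
    simpa using h4
  refine ⟨⟨Q, hQ.isPrime, ?_⟩, h2⟩
  rintro rfl
  rw [Ideal.mem_bot] at h2
  have : (2 : 𝓞 F) ≠ 0 := two_ne_zero
  exact this (by exact_mod_cast h2)

theorem hte : ST_HTE := by
  intro F _ _ n m R
  have : Fact (Nat.Prime 2) := ⟨Nat.prime_two⟩
  obtain ⟨v, hv⟩ := exists_place_two F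
  obtain ⟨𝔓, _, C, hC, i, j, act, W, hW, _⟩ := R.hodgeTate 2 v hv
  set M : Matrix (Fin n) (Fin n) C := (R.B 2).map i with hM
  have hdet : M.det ≠ 0 := by
    rw [hM, ← RingHom.mapMatrix_apply, ← RingHom.map_det]
    intro h
    exact R.nondeg 2 ((map_eq_zero i).1 h)
  have hsymm : M.transpose = M := by
    rw [hM, ← Matrix.transpose_map, R.symm 2]
  have hnd := LinearMap.BilinForm.nondegenerate_toBilin'_of_det_ne_zero' M hdet
  have horth : LinearMap.BilinForm.orthogonal (Matrix.toBilin' M) W = W := by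
    ext x
    rw [LinearMap.BilinForm.mem_orthogonal_iff, hW x]
    refine forall₂_congr fun y _ => ?_
    rw [Matrix.toBilin'_apply']
    rw [Matrix.dotProduct_mulVec, ← Matrix.mulVec_transpose, hsymm, dotProduct_comm]
  have h1 := LinearMap.BilinForm.finrank_orthogonal hnd W
  rw [horth, Module.finrank_fin_fun] at h1
  have h2 : Module.finrank C W ≤ n := by
    have := Submodule.finrank_le W
    rwa [Module.finrank_fin_fun] at this
  exact ⟨Module.finrank C W, by omega⟩

end PQ
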