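import Pool.Agent.Helper94.PQ.StmtsT

/-! # Row HTET: the rank is even (totally real coefficients) -/

open NumberField
open scoped Classical

namespace PQ

open BKA

theorem exists_place_over (F : Type) [Field F] [NumberField F] (ℓ : ℕ) (hℓ : ℓ.Prime) :
    ∃ v : Pl F, (ℓ : 𝓞 F) ∈ v.asIdeal := by
  have hp : Prime (ℓ : ℤ) := Nat.prime_iff_prime_int.mp hℓ
  have hP : (Ideal.span {(ℓ : ℤ)}).IsMaximal := by
    have h1 : (Ideal.span {(ℓ : ℤ)}).IsPrime := (Ideal.span_singleton_prime hp.ne_zero).2 hp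
    exact h1.isMaximal (by simpa using hℓ.ne_zero)
  obtain ⟨Q, hQ, hl⟩ := Ideal.exists_maximal_ideal_liesOver_of_isIntegral (S := 𝓞 F)
    (Ideal.span {(ℓ : ℤ)})
  have h2 : ((ℓ : ℕ) : 𝓞 F) ∈ Q := by
    have h3 : (ℓ : ℤ) ∈ Ideal.span {(ℓ : ℤ)} := Ideal.mem_span_singleton_self _
    rw [hl.over] at h3
    have h4 : algebraMap ℤ (𝓞 F) ℓ ∈ Q := h3
    simpa using h4
  refine ⟨⟨Q, hQ.isPrime, ?_⟩, h2⟩
  rintro rfl
  rw [Ideal.mem_bot] at h2
  have : (ℓ : 𝓞 F) ≠ 0 := by exact_mod_cast hℓ.ne_zero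
  exact this h2

theorem even_of_lagrangian {C : Type} [Field C] {n : ℕ} (M : Matrix (Fin n) (Fin n) C)
    (hsymm : M.transpose = M) (hdet : M.det ≠ 0) (W : Submodule C (Fin n → C))
    (hW : ∀ x, x ∈ W ↔ ∀ y ∈ W, x ⬝ᵥ M.mulVec y = 0) : Even n := by
  have hnd := LinearMap.BilinForm.nondegenerate_toBilin'_of_det_ne_zero' M hdet
  have horth : LinearMap.BilinForm.orthogonal (Matrix.toBilin' M) W = W := by
    ext x
    rw [LinearMap.BilinForm.mem_orthogonal_iff, hW x]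
    refine forall₂_congr fun y _ => ?_
    rw [Matrix.toBilin'_apply']
    rw [Matrix.dotProduct_mulVec, ← Matrix.mulVec_transpose, hsymm, dotProduct_comm]
  have h1 := LinearMap.BilinForm.finrank_orthogonal hnd W
  rw [horth, Module.finrank_fin_fun] at h1
  have h2 : Module.finrank C W ≤ n := by
    have := Submodule.finrank_le W
    rwa [Module.finrank_fin_fun] at this
  exact ⟨Module.finrank C W, by omega⟩

theorem htet : ST_HTET := by
  intro F E _ _ _ _ n m δ b ℓ _ R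
  obtain ⟨v, hv⟩ := exists_place_over F ℓ Fact.out
  obtain ⟨𝔓, _, C, _, _, _, j, act, W, hW, _⟩ := R.hodgeTate v hv
  have hc : CharZero C := charZero_of_injective_algebraMap (algebraMap ℚ_[ℓ] C).injective
  obtain ⟨⟨i, τ⟩, _, _⟩ := R.ext C ((IsAlgClosed.lift : E →ₐ[ℚ] C) : E →+* C)
  refine even_of_lagrangian ((R.orth i).B.map τ) ?_ ?_ (W i τ) (hW i τ)
  · rw [← Matrix.transpose_map, (R.orth i).symm]
  · have h1 : ((R.orth i).B.map τ).det = τ (R.orth i).B.det :=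
      (RingHom.map_det (τ : R.K i →+* C) (R.orth i).B).symm
    rw [h1]
    intro h
    exact (R.orth i).nondeg ((map_eq_zero τ).1 h)

end PQ
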