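import Pool.Agent.Helper94.PQ.Stmts

/-! # Row Q3: traces of elements of `2`-power order over the `3`-adic numbers -/

namespace PQ

open Polynomial

/-- the Frobenius: the cube of a root of unity of order a power of `2` is conjugate over `ℚ_3` -/
theorem exists_frob (N : ℕ) (hN : ¬ 3 ∣ N) (hN0 : 0 < N) {Ω : Type} [Field Ω] [Algebra ℚ_[3] Ω]
    (ζ : Ω) (hζ : ζ ^ N = 1) : aeval (ζ ^ 3) (minpoly ℚ_[3] ζ) = 0 := by
  classical
  let _ : Algebra ℤ_[3] Ω := ((algebraMap ℚ_[3] Ω).comp (algebraMap ℤ_[3] ℚ_[3])).toAlgebra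
  have _ : IsScalarTower ℤ_[3] ℚ_[3] Ω := IsScalarTower.of_algebraMap_eq (fun _ => rfl)
  have hinj : Function.Injective (algebraMap ℤ_[3] Ω) := by
    have h : Function.Injective ((algebraMap ℚ_[3] Ω).comp (algebraMap ℤ_[3] ℚ_[3])) :=
      (algebraMap ℚ_[3] Ω).injective.comp (IsFractionRing.injective ℤ_[3] ℚ_[3])
    exact h
  have _ : FaithfulSMul ℤ_[3] Ω := (faithfulSMul_iff_algebraMap_injective ℤ_[3] Ω).2 hinj
  have hmon : (X ^ N - 1 : ℤ_[3][X]).Monic := monic_X_pow_sub_C (1 : ℤ_[3]) hN0.ne'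
  have hint : IsIntegral ℤ_[3] ζ := ⟨X ^ N - 1, hmon, by simp [hζ]⟩
  have hmp : minpoly ℚ_[3] ζ = (minpoly ℤ_[3] ζ).map (algebraMap ℤ_[3] ℚ_[3]) :=
    minpoly.isIntegrallyClosed_eq_field_fractions' ℚ_[3] hint
  rw [hmp, aeval_map_algebraMap]
  set f := minpoly ℤ_[3] ζ with hf
  have hfm : f.Monic := minpoly.monic hint
  have hdvd : f ∣ X ^ N - 1 := minpoly.isIntegrallyClosed_dvd hint (by simp [hζ])
  obtain ⟨g, hg⟩ := hdvd
  by_contra hne
  have h1 : aeval (ζ ^ 3) (X ^ N - 1 : ℤ_[3][X]) = 0 := by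
    simp only [map_sub, map_pow, aeval_X, map_one]
    rw [← pow_mul, mul_comm, pow_mul, hζ]; simp
  rw [hg, map_mul] at h1
  have h2 : aeval (ζ ^ 3) g = 0 := (mul_eq_zero.1 h1).resolve_left hne
  have h3 : f ∣ expand ℤ_[3] 3 g := by
    apply minpoly.isIntegrallyClosed_dvd hint
    rw [expand_aeval]
    exact h2
  -- reduction modulo 3
  have h4 : f.map PadicInt.toZMod ∣ (g.map (PadicInt.toZMod (p := 3))) ^ 3 := by
    rw [← ZMod.expand_card, ← map_expand]
    exact Polynomial.map_dvd _ h3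
  have hsep : ((X ^ N - 1 : (ZMod 3)[X])).Separable := by
    have hN3 : (N : ZMod 3) ≠ 0 := by
      intro h
      exact hN ((ZMod.natCast_eq_zero_iff N 3).1 h)
    have h := separable_X_pow_sub_C (1 : ZMod 3) hN3 one_ne_zero
    simpa using h
  have h5 : (X ^ N - 1 : (ZMod 3)[X]) = f.map PadicInt.toZMod * g.map PadicInt.toZMod := by
    rw [← Polynomial.map_mul, ← hg]
    simp
  rw [h5] at hsep
  have hco : IsCoprime (f.map (PadicInt.toZMod (p := 3))) (g.map PadicInt.toZMod) :=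
    hsep.isCoprime
  have hunit : IsUnit (f.map (PadicInt.toZMod (p := 3))) :=
    (hco.pow_right (n := 3)).isUnit_of_dvd' dvd_rfl h4
  have hdeg : (f.map (PadicInt.toZMod (p := 3))).natDegree = f.natDegree :=
    hfm.natDegree_map _
  have h6 := natDegree_eq_zero_of_isUnit hunit
  rw [hdeg] at h6
  have h7 : 0 < f.natDegree := minpoly.natDegree_pos hint
  omega

/-- the traces of the powers of a matrix of finite order in terms of the multiplicities of its
eigenvalues -/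
theorem exists_mult {Ω : Type} [Field Ω] [CharZero Ω] (n N : ℕ) (hN0 : 0 < N) (ζ : Ω)
    (hζ : IsPrimitiveRoot ζ N) (A : Matrix (Fin n) (Fin n) Ω) (hA : A ^ N = 1) :
    ∃ t : ℕ → ℕ, ∀ m : ℕ, (A ^ m).trace = ∑ j ∈ Finset.range N, (ζ ^ m) ^ j * (t j : Ω) := by
  classical
  have hNΩ : (N : Ω) ≠ 0 := by exact_mod_cast hN0.ne'
  have hζ0 : ζ ≠ 0 := hζ.ne_zero hN0.ne'
  set M : ℕ → Matrix (Fin n) (Fin n) Ω := fun j => (ζ⁻¹ ^ j) • A with hM
  have hMN : ∀ j, M j ^ N = 1 := by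
    intro j
    simp only [hM]
    rw [_root_.smul_pow, hA, ← pow_mul, mul_comm, pow_mul, inv_pow, hζ.pow_eq_one]
    simp
  set e : ℕ → Matrix (Fin n) (Fin n) Ω := fun j => (N : Ω)⁻¹ • ∑ a ∈ Finset.range N, M j ^ a
    with he
  have h1 : ∀ j, M j * e j = e j := by
    intro j
    simp only [he]
    rw [mul_smul_comm, Finset.mul_sum]
    congr 1
    have h2 : ∀ a, M j * M j ^ a = M j ^ (a + 1) := fun a => (pow_succ' _ _).symm
    simp only [h2]
    have h3 := Finset.sum_range_succ' (fun a => M j ^ a) N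
    have h4 := Finset.sum_range_succ (fun a => M j ^ a) N
    rw [h4, hMN, pow_zero] at h3
    exact (add_right_cancel h3).symm
  have h2 : ∀ j a, M j ^ a * e j = e j := by
    intro j a
    induction a with
    | zero => simp
    | succ a ih => rw [pow_succ, mul_assoc, h1, ih]
  have h3 : ∀ j, e j * e j = e j := by
    intro j
    conv_lhs => rw [he]
    simp only
    rw [smul_mul_assoc, Finset.sum_mul]
    have : ∀ a ∈ Finset.range N, M j ^ a * ((N : Ω)⁻¹ • ∑ a ∈ Finset.range N, M j ^ a) = e j := by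
      intro a _
      exact h2 j a
    rw [Finset.sum_congr rfl this, Finset.sum_const, Finset.card_range, ← Nat.cast_smul_eq_nsmul Ω,
      smul_smul, inv_mul_cancel₀ hNΩ, one_smul]
  have h4 : ∀ j, A * e j = ζ ^ j • e j := by
    intro j
    have h5 : A = ζ ^ j • M j := by
      simp only [hM]
      rw [smul_smul, ← mul_pow, mul_inv_cancel₀ hζ0, one_pow, one_smul]
    conv_lhs => rw [h5]
    rw [smul_mul_assoc, h1]
  have h5 : ∀ m j, A ^ m * e j = (ζ ^ m) ^ j • e j := by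
    intro m j
    induction m with
    | zero => simp
    | succ m ih =>
      rw [pow_succ, mul_assoc, h4, mul_smul_comm, ih, smul_smul, pow_succ, mul_pow, mul_comm]
  have h6 : ∑ j ∈ Finset.range N, e j = 1 := by
    simp only [he, hM]
    rw [← Finset.smul_sum, Finset.sum_comm]
    have h7 : ∀ a ∈ Finset.range N, ∑ j ∈ Finset.range N, ((ζ⁻¹ ^ j) • A) ^ a =
        (if a = 0 then (N : Ω) else 0) • (1 : Matrix (Fin n) (Fin n) Ω) := by
      intro a ha
      rw [Finset.mem_range] at ha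
      by_cases ha0 : a = 0
      · subst ha0
        simp only [pow_zero, Finset.sum_const, Finset.card_range, if_true]
        rw [Nat.cast_smul_eq_nsmul]
      · rw [if_neg ha0, zero_smul]
        have h8 : ∀ j, ((ζ⁻¹ ^ j) • A) ^ a = ((ζ⁻¹ ^ a) ^ j) • A ^ a := by
          intro j
          rw [_root_.smul_pow, ← pow_mul, ← pow_mul, mul_comm]
        simp only [h8]
        rw [← Finset.sum_smul]
        have h9 : ζ⁻¹ ^ a ≠ 1 := hζ.inv.pow_ne_one_of_pos_of_lt ha0 ha
        have h10 : (ζ⁻¹ ^ a) ^ N = 1 := by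
          rw [← pow_mul, mul_comm, pow_mul, inv_pow, hζ.pow_eq_one]; simp
        have h11 : (∑ j ∈ Finset.range N, (ζ⁻¹ ^ a) ^ j) * (ζ⁻¹ ^ a - 1) = 0 := by
          rw [geom_sum_mul, h10, sub_self]
        rw [(mul_eq_zero.1 h11).resolve_right (sub_ne_zero.2 h9), zero_smul]
    rw [Finset.sum_congr rfl h7, ← Finset.sum_smul, Finset.sum_ite_eq' (Finset.range N) 0,
      if_pos (Finset.mem_range.2 hN0), smul_smul, inv_mul_cancel₀ hNΩ, one_smul]
  have h7 : ∀ j, ∃ t : ℕ, (e j).trace = t := by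
    intro j
    have h8 : IsIdempotentElem (Matrix.toLin' (e j)) := by
      change Matrix.toLin' (e j) * Matrix.toLin' (e j) = _
      rw [Module.End.mul_eq_comp, ← Matrix.toLin'_mul, h3]
    have h9 := (LinearMap.IsIdempotentElem.isProj_range _ h8).trace
    rw [Matrix.trace_toLin'_eq] at h9
    exact ⟨_, h9⟩
  choose t ht using h7
  refine ⟨t, fun m => ?_⟩
  calc (A ^ m).trace = (A ^ m * ∑ j ∈ Finset.range N, e j).trace := by rw [h6, mul_one]
    _ = ∑ j ∈ Finset.range N, (A ^ m * e j).trace := by rw [Finset.mul_sum, Matrix.trace_sum]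
    _ = _ := by
      refine Finset.sum_congr rfl fun j _ => ?_
      rw [h5, Matrix.trace_smul, ht, smul_eq_mul]

theorem q3 : ST_Q3 := by
  classical
  intro n k T hT
  have hN0 : 0 < 2 ^ k := by positivity
  have hN3 : ¬ 3 ∣ 2 ^ k := by
    intro h
    have := (Nat.prime_three).dvd_of_dvd_pow h
    omega
  let Ω := AlgebraicClosure ℚ_[3]
  obtain ⟨ζ, hζ⟩ := HasEnoughRootsOfUnity.exists_primitiveRoot Ω (2 ^ k)
  have h1 : aeval (ζ ^ 3) (minpoly ℚ_[3] ζ) = 0 := exists_frob (2 ^ k) hN3 hN0 ζ hζ.pow_eq_one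
  have h2 : IsConjRoot ℚ_[3] ζ (ζ ^ 3) :=
    (isConjRoot_iff_aeval_eq_zero (Algebra.IsIntegral.isIntegral ζ)).2 h1
  obtain ⟨σ, hσ⟩ := isConjRoot_iff_exists_algEquiv.1 h2.symm
  set A : Matrix (Fin n) (Fin n) Ω := T.map (algebraMap ℚ_[3] Ω) with hA
  have hApow : ∀ m, A ^ m = (T ^ m).map (algebraMap ℚ_[3] Ω) := by
    intro m
    exact (map_pow (algebraMap ℚ_[3] Ω).mapMatrix T m).symm
  have hAN : A ^ (2 ^ k) = 1 := by
    rw [hApow, hT]
    exact map_one (algebraMap ℚ_[3] Ω).mapMatrix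
  obtain ⟨t, ht⟩ := exists_mult n (2 ^ k) hN0 ζ hζ A hAN
  have htr : ∀ m, (A ^ m).trace = algebraMap ℚ_[3] Ω (T ^ m).trace := by
    intro m
    rw [hApow]
    exact (AddMonoidHom.map_trace (algebraMap ℚ_[3] Ω).toAddMonoidHom (T ^ m)).symm
  have h3 : (A ^ 3).trace = (A ^ 1).trace := by
    have h4 : σ ((A ^ 1).trace) = (A ^ 1).trace := by
      rw [htr, AlgEquiv.commutes]
    rw [← h4, ht 1, ht 3, map_sum]
    refine Finset.sum_congr rfl fun j _ => ?_
    rw [map_mul, map_natCast, map_pow, pow_one, ← hσ]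
  rw [htr, htr] at h3
  have h4 := (algebraMap ℚ_[3] Ω).injective h3
  rwa [pow_one] at h4

end PQ
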